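import Pool.Agent.H98.ACP.AllForms0

/-!
# Cycles of every dimension on products of elliptic curves: Beilinson-Bloch on infinite rank subgroups

`E_a : y ^ 2 = x (x - 1) (x - a)`; up to isomorphism every elliptic curve over the algebraic closure of
`ℚ` is of this form.  Let `X = ∏ c, E_{a c} ^ (n c)`, `c = 0, ..., s - 1`, where the curves `E_{a c}` are
arbitrary (also equal or isogenous ones are allowed), and let `V = ∏ c, N c E_{a c} ^ (m c) + q` be a
translate of an abelian subvariety of dimension `d = ∑ m c`.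

The homology of the complex torus `X(ℂ) = H_1(X, ℝ) / H_1(X, ℤ)` is the exterior algebra of `H_1(X, ℤ)`;
`H ^ r (X, ℤ)` is the group of the alternating forms of degree `r` on `H_1(X, ℤ)`.  A cycle
`Z = ∑ t, e t • V_t` of dimension `d` is homologically trivial if `∑ t, e t * ∫_{V_t} ω = 0` for all `ω` in
`H ^ (2 d) (X, ℤ)`.  Its Abel-Jacobi image is then, up to an element of order two, the element
`∑ t, e t • [V_t] * q_t` of the intermediate Jacobian
`H_{2 d + 1}(X, ℝ) / H_{2 d + 1}(X, ℤ) = Hom(H ^ (2 d + 1)(X, ℤ), ℝ / ℤ)`: its value at `ω` is the sum of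
the integrals of `ω` over the chains swept out by `V_t - q_t` along paths from `0` to `q_t` (the subvarieties
`V_t - q_t` contain `0` and are stable under `- 1`).
-/

set_option autoImplicit false

open scoped Classical Kronecker

namespace Pool.Agent.Results.MP_e28333_ag.AllCodimensions

open ZC ACP

/-- The translate by `q` of the abelian subvariety `∏ c, N c E_{a c} ^ (m c)` of
`X = ∏ c, E_{a c} ^ (n c)`, where `N c` is an integral `n c × m c` matrix. -/
def translate {k : Type} [Field k] {s : ℕ} {a : Fin s → k} {n m : Fin s → ℕ}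
    (N : ∀ c, Matrix (Fin (n c)) (Fin (m c)) ℤ) (q : ∀ c, Fin (n c) → Pt (a c)) :
    Set (∀ i : (Σ c, Fin (n c)), Pt (a i.1)) :=
  {x | ∃ P : ∀ c, Fin (m c) → Pt (a c), ∀ (c : Fin s) (i : Fin (n c)),
    x ⟨c, i⟩ = (∑ j, N c i j • P c j) + q c i}

/-- `H_1(X, ℤ)` for `X = ∏ c, E_{a c} ^ (n c)`: each factor contributes `H_1(E, ℤ) = ℤ ^ 2`. -/
abbrev H1 {s : ℕ} (n : Fin s → ℕ) : Type := (Σ c, Fin (n c)) × Fin 2 → ℤ

/-- The images in `H_1(X, ℤ)` of the `2 d` basis vectors of `H_1(∏ c, E_{a c} ^ (m c), ℤ)`, `d = ∑ m c`,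
under the homomorphism given by the matrices `N c`. -/
def image {s d : ℕ} {n m : Fin s → ℕ} (h : ∑ c, m c = d)
    (N : ∀ c, Matrix (Fin (n c)) (Fin (m c)) ℤ) (j : Fin d × Fin 2) : H1 n :=
  (Matrix.blockDiagonal' N ⊗ₖ (1 : Matrix (Fin 2) (Fin 2) ℤ)).transpose
    (finSigmaFinEquiv.symm (Fin.cast h.symm j.1), j.2)

/-- The integral of a class `ω` in `H ^ (2 d) (X, ℤ)`, that is, of an alternating form of degree `2 d` on
`H_1(X, ℤ)`, over a translate of `∏ c, N c E_{a c} ^ (m c)`. -/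
def integral {s d : ℕ} {n m : Fin s → ℕ} (h : ∑ c, m c = d)
    (N : ∀ c, Matrix (Fin (n c)) (Fin (m c)) ℤ) (ω : H1 n [⋀^Fin d × Fin 2]→ₗ[ℤ] ℤ) : ℤ :=
  ω (image h N)

/-- The product of the homology class of `∏ c, N c E_{a c} ^ (m c)` and the point `q` of
`X(ℂ) = H_1(X, ℝ) / H_1(X, ℤ)`, as a function on `H ^ (2 d + 1) (X, ℤ)`: the integral modulo `ℤ` of the
alternating form `ω` of degree `2 d + 1` over the chain swept out by `∏ c, N c E_{a c} ^ (m c)` along a path
from `0` to `q`.  The homomorphism `φ c : E_{a c} → (ℝ / ℤ) ^ 2` gives the coordinates of the points with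
respect to the basis of `H_1(E_{a c}, ℤ)`. -/
noncomputable def abelJacobi {k : Type} [Field k] {s d : ℕ} {a : Fin s → k} {n m : Fin s → ℕ}
    (φ : ∀ c, Pt (a c) →+ (Fin 2 → AddCircle (1 : ℝ))) (h : ∑ c, m c = d)
    (N : ∀ c, Matrix (Fin (n c)) (Fin (m c)) ℤ) (q : ∀ c, Fin (n c) → Pt (a c))
    (ω : H1 n [⋀^Option (Fin d × Fin 2)]→ₗ[ℤ] ℤ) : AddCircle (1 : ℝ) :=
  ∑ x : (Σ c, Fin (n c)) × Fin 2,
    ω (fun o => o.elim (Pi.single x 1) (image h N)) • φ x.1.1 (q x.1.1 x.1.2) x.2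

/-- For `c ≠ 0, 1` let `E_c : y ^ 2 = x (x - 1) (x - c)`; up to isomorphism every elliptic curve over
the algebraic closure of `ℚ` is of this form.  Let `P` be any point of `E_b`.  There is a system of
subgroups `A c` of `E_c`, one for every elliptic curve `E_c` over the algebraic closure of `ℚ`, all of
infinite rank, closed under division and mapped into each other by all isogenies, with `P ∈ A b`, such
that for every product `X = ∏ c, E_{a c} ^ (n c)`, every `0 ≤ d < dim X`, `2 ≤ dim X`, and every cycle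
`Z = ∑ t, e t • [∏ c, N t c E_{a c} ^ (m t c) + q t]` of dimension `d` on `X`, where the `N t c` are integral
matrices with an integral left inverse and the `q t` have their coordinates in the `A (a c)`: if `Z` is
homologically trivial and its Abel-Jacobi image is torsion, then `Z` is torsion modulo rational
equivalence.  (The coordinates `φ c` of the points of the curves may be any injective homomorphisms to
`(ℝ / ℤ) ^ 2`.) -/
theorem result (b : AlgebraicClosure ℚ) (hb0 : b ≠ 0) (hb1 : b ≠ 1) (P : Pt b) :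
    ∃ A : ∀ c : AlgebraicClosure ℚ, AddSubgroup (Pt c), P ∈ A b ∧
      (∀ c, c ≠ 0 → c ≠ 1 → ∃ f : ℕ → A c, LinearIndependent ℤ f) ∧
      (∀ c (R : Pt c) (m : ℕ), 0 < m → m • R ∈ A c → R ∈ A c) ∧
      (∀ c d (Θ : Corr c d), (∀ x y, Θ.base (x + y) = Θ.base x + Θ.base y) →
        ∀ R ∈ A c, Θ.base R ∈ A d) ∧
      ∀ (s : ℕ) (a : Fin s → AlgebraicClosure ℚ), (∀ c, a c ≠ 0 ∧ a c ≠ 1) →
        ∀ φ : ∀ c, Pt (a c) →+ (Fin 2 → AddCircle (1 : ℝ)), (∀ c, Function.Injective (φ c)) →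
        ∀ (n : Fin s → ℕ) (d : ℕ), 2 ≤ ∑ c, n c → d < ∑ c, n c →
        ∀ (r : ℕ) (e : Fin r → ℤ) (m : Fin r → Fin s → ℕ) (hm : ∀ t, ∑ c, m t c = d)
          (N : ∀ t c, Matrix (Fin (n c)) (Fin (m t c)) ℤ) (q : Fin r → ∀ c, Fin (n c) → Pt (a c)),
          (∀ t c, ∃ U : Matrix (Fin (m t c)) (Fin (n c)) ℤ, U * N t c = 1) →
          (∀ t c i, q t c i ∈ A (a c)) →
          (∀ ω, ∑ t, e t * integral (hm t) (N t) ω = 0) →
          (∃ l : ℕ, 0 < l ∧ ∀ ω, l • ∑ t, e t • abelJacobi φ (hm t) (N t) (q t) ω = 0) →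
          ∃ M : ℕ, 0 < M ∧
            M • ∑ t, e t • (Finsupp.single (translate (N t) (q t)) 1 :
              CyclesM (fun i : (Σ c, Fin (n c)) => a i.1)) ∈
              ratM (fun i : (Σ c, Fin (n c)) => a i.1) d :=
  allForms0 b hb0 hb1 P

end Pool.Agent.Results.MP_e28333_ag.AllCodimensions
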