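import Pool.Agent.H88.GJ.Core
import Pool.Agent.H95.GJ.Fin

/-!
# Zero-cycles on Jacobian surfaces: the annihilators of all points have infinite rank
-/

set_option autoImplicit false

open scoped Classical

namespace Pool.Agent.Results.MP_e28333_ag.Annihilators

open HJ

/-- Let `C : y ^ 2 = (x - a 0) ⋯ (x - a 4)` be a curve of genus two over the algebraic closure of `ℚ`
(every curve of genus two is isomorphic to one of these), `w` the hyperelliptic involution,
`e_P = [P] - [w P]` for a point `P` of `C` and `c * d` the exterior product of zero-cycles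
(`[s] * [t] = [s + t]`; a product of zero-cycles on `C` is a zero-cycle on the symmetric square
`C^(2)`, which is birational to the Jacobian).

For every zero-cycle `z` of degree zero on `C` there are points `T 0, U 0, T 1, U 1, …` of `C` with
the following properties.
* The classes `e_(T 0) - e_(U 0), e_(T 1) - e_(U 1), …` are linearly independent in the Jacobian of `C`
  modulo torsion and `ℤ z`, and so are `e_(T 0), e_(T 1), …`.
* A positive multiple of `e_(T j) + e_(U j)` lies in `ℤ z` modulo rational equivalence.
* `z * (e_(T j) - e_(U j))` is torsion modulo rational equivalence.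
* If `z * z` is torsion modulo rational equivalence, then so is `z * e_(T j)`. -/
theorem result (a : Fin 5 → AlgebraicClosure ℚ) (ha : Function.Injective a)
    (z : Cyc (fun _ : Unit => quint a ha)) (h1 : ∀ s ∈ z.support, Multiset.card s = 1)
    (h0 : (z.sum fun _ m => m) = 0) :
    ∃ T U : ℕ → Pts (fun _ : Unit => quint a ha),
      (∀ (m : ℤ) (n : ℕ →₀ ℤ),
        Tors _ (m • z + n.sum fun j b => b • (ee (T j) - ee (U j))) → n = 0) ∧
      (∀ (m : ℤ) (n : ℕ →₀ ℤ), Tors _ (m • z + n.sum fun j b => b • ee (T j)) → n = 0) ∧
      ∀ j, (∃ (N : ℕ) (M : ℤ), 0 < N ∧ N • (ee (T j) + ee (U j)) - M • z ∈ ratZero _) ∧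
        Tors _ (mul z (ee (T j) - ee (U j))) ∧
        (Tors _ (mul z z) → Tors _ (mul z (ee (T j)))) :=
  GJ.final a ha (fun {_} => GJ.claim a) z h1 h0

end Pool.Agent.Results.MP_e28333_ag.Annihilators
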