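import Pool.Agent.H83.EC.Stm

/-!
# Zero-cycles on products of elliptic curves and curves of genus two
-/

set_option autoImplicit false

open scoped Classical

namespace Pool.Agent.Results.MP_e28333_ag.EllipticGenusTwo

open HJ EC

/-- Let `0, 1, a, b, c` be different algebraic numbers, `E : z ^ 2 = x (x - 1) (x - a)` and
`C : y ^ 2 = x (x - 1) (x - a) (x - b) (x - c)` (every curve of genus two over the algebraic closure of
`ℚ`, with four of its six Weierstrass points chosen, is of this form; `E` is the double cover of the line
ramified at the four chosen points).  Write `e_P = [P] - [w P]`, `w` the hyperelliptic involution.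

For every point `P` of `E` there is a group `B` of classes of zero-cycles on (the symmetric powers of) `C`, closed
under division, which contains infinitely many classes `e_(q 0), e_(q 1), …` that are linearly independent in
the Jacobian of `C` modulo torsion, such that for all `n` and `m` the following holds.  Every zero-cycle
on `C^(m_0) × E^(m_1) × ⋯ × E^(m_n)` of degree zero and with torsion Albanese image is torsion modulo
rational equivalence, if it is supported on points `s` such that the sums `Σ_{R ∈ s_i} e_R`, `i = 1, …, n`,
have positive multiples in `ℤ e_P` and `Σ_{R ∈ s_0} e_R` has a positive multiple in `ℤ e_Q` for some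
point `Q` of `C` with `e_Q ∈ B` (modulo rational equivalence).  For `m_i = 1` these are zero-cycles on
`C × E ^ n`, supported on the points `(Q, P_1, …, P_n)` with `e_Q ∈ B` and `P_i` in the division hull of
`P`. -/
theorem result (a b c : AlgebraicClosure ℚ) (h : Function.Injective (c5 a b c))
    (P : (cE a b c h).Pt) :
    ∃ B : AddSubgroup (Cyc (fun _ : Unit => cC a b c h)), Large (cC a b c h) B ∧
      ∀ (n : ℕ) (m : Option (Fin n) → ℕ) (z : Cyc (famN a b c h n)),
        (∀ s ∈ z.support, (∀ i, Multiset.card (part i s) = m i) ∧
          (∀ i, OnLine (famN a b c h n) (some i) s ⟨some i, P⟩) ∧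
          ∃ Q : (cC a b c h).Pt, ee ⟨(), Q⟩ ∈ B ∧ OnLine (famN a b c h n) none s ⟨none, Q⟩) →
        AlbTors (famN a b c h n) z → Tors (famN a b c h n) z :=
  stm a b c h P

end Pool.Agent.Results.MP_e28333_ag.EllipticGenusTwo
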