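import Pool.Agent.H95.HK.FinT

/-!
# Zero-cycles on symmetric powers of curves of genus two
-/

set_option autoImplicit false

open scoped Classical

namespace Pool.Agent.Results.MP_e28333_ag.GenusTwo

open HJ

/-- Let `C : y ^ 2 = (x - a 0) ⋯ (x - a 4)` be a curve of genus two over the algebraic closure of `ℚ`
(every curve of genus two is isomorphic to one of these), `w` the hyperelliptic involution and
`e_P = [P] - [w P]` for a point `P` of `C`.  Every point `P` of `C` lies in a quadruple
`P = f P 0, f P 1, f P 2, f P 3` of points of `C` such that the following holds.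
* There is a sequence of points `Q 0, Q 1, …` for which all the classes `e_(f (Q i) j)` (for all `i` and
  `j` together) are linearly independent in the Jacobian of `C` (modulo torsion).
* For all `m` every zero-cycle `c` on the symmetric power `C^(m)` of degree zero and with torsion
  Albanese image is torsion modulo rational equivalence, if it is supported on points `s` such that for
  some point `P`, which may depend on `s`, the class `Σ_{R ∈ s} e_R` has a multiple in the group
  spanned by `e_(f P 0), …, e_(f P 3)` modulo rational equivalence. -/
theorem result (a : Fin 5 → AlgebraicClosure ℚ) (ha : Function.Injective a) :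
    ∃ f : Pts (fun _ : Unit => quint a ha) → Fin 4 → Pts (fun _ : Unit => quint a ha),
      (∀ P, f P 0 = P) ∧
      (∃ Q : ℕ → Pts (fun _ : Unit => quint a ha), ∀ n : ℕ × Fin 4 →₀ ℤ,
        Tors _ (n.sum fun j b => b • ee (f (Q j.1) j.2)) → n = 0) ∧
      ∀ (m : ℕ) (c : Cyc (fun _ : Unit => quint a ha)),
        (∀ s ∈ c.support, Multiset.card s = m) →
        (∀ s ∈ c.support, ∃ (P : Pts (fun _ : Unit => quint a ha)) (N : ℕ), 0 < N ∧
          N • (s.map ee).sum ∈ AddSubgroup.closure (Set.range fun j => ee (f P j)) ⊔ ratZero _) →
        (c.sum fun _ b => b) = 0 → Tors _ (c.sum fun s b => b • (s.map pt).sum) → Tors _ c :=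
  HK.final3 a ha

end Pool.Agent.Results.MP_e28333_ag.GenusTwo
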